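import Pool.Agent.Lib.MP_34521c_al.Ins.Potential

set_option autoImplicit false
open Pointwise

/-!
MP_34521c_al, own theorem beside the frozen negation S01146: colourings of the free group of
countable rank with `k + 2` colours which meet all tasks (colour `i`, finite set `S` with at most
`2 ^ k` elements) and all prescriptions (`g` is a product of colour `i` and colour `j`).
-/

namespace Pool.Agent.MP34521cIns

abbrev G := FreeGroup ℕ

/-- the reduced word of `u` ends in the letter `(m, b)` -/
def Ends (m : ℕ) (b : Bool) (u : G) : Prop := u.toWord.getLast? = some (m, b)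

theorem toWord_of_mul (j : ℕ) (u : G) :
    (FreeGroup.of j * u).toWord = List.casesOn u.toWord [(j, true)]
      (fun hd tl => if j = hd.1 ∧ true = !hd.2 then tl else (j, true) :: hd :: tl) := by
  rw [FreeGroup.toWord_mul, FreeGroup.toWord_of, List.singleton_append, FreeGroup.reduce.cons,
    FreeGroup.reduce_toWord]

theorem ends_of_mul_ne {j m : ℕ} (h : j ≠ m) (b : Bool) (u : G) :
    Ends m b (FreeGroup.of j * u) ↔ Ends m b u := by
  unfold Ends
  rw [toWord_of_mul]
  rcases u.toWord with _ | ⟨hd, tl⟩
  · simp [h]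
  · dsimp only
    split_ifs with hc
    · obtain ⟨h1, h2⟩ := hc
      rcases tl with _ | ⟨a, l⟩
      · obtain ⟨x, y⟩ := hd
        simp only at h1 h2
        subst h1
        simp [h]
      · simp
    · simp

theorem ends_of_mul_self {m : ℕ} {u : G} (hu : u ≠ 1) :
    Ends m true (FreeGroup.of m * u) ↔ Ends m true u := by
  unfold Ends
  rw [toWord_of_mul]
  have hu' : u.toWord ≠ [] := by
    intro h; exact hu (FreeGroup.toWord_eq_nil_iff.1 h)
  revert hu'
  rcases u.toWord with _ | ⟨hd, tl⟩
  · intro h; exact absurd rfl h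
  · intro _
    dsimp only
    split_ifs with hc
    · obtain ⟨h1, h2⟩ := hc
      rcases tl with _ | ⟨a, l⟩
      · obtain ⟨x, y⟩ := hd
        simp only at h1 h2
        subst h1
        cases y <;> simp_all
      · simp
    · simp

theorem not_ends_one (m : ℕ) (b : Bool) : ¬ Ends m b 1 := by
  unfold Ends; simp

theorem ends_of (m : ℕ) : Ends m true (FreeGroup.of m) := by
  unfold Ends; simp

theorem ends_of_inv (m : ℕ) : Ends m false (FreeGroup.of m)⁻¹ := by
  unfold Ends; simp [FreeGroup.toWord_inv, FreeGroup.invRev]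

/-- `g` only involves letters of index less than `m` (as far as we need it) -/
def Lev (m : ℕ) (g : G) : Prop := ∀ k, m ≤ k → ∀ b u, Ends k b (g * u) ↔ Ends k b u

theorem Lev.one (m : ℕ) : Lev m 1 := by
  intro k _ b u; simp

theorem Lev.mul {m : ℕ} {g h : G} (hg : Lev m g) (hh : Lev m h) : Lev m (g * h) := by
  intro k hk b u
  rw [mul_assoc, hg k hk, hh k hk]

theorem Lev.inv {m : ℕ} {g : G} (hg : Lev m g) : Lev m g⁻¹ := by
  intro k hk b u
  rw [← hg k hk b (g⁻¹ * u)]
  simp

theorem Lev.mono {m n : ℕ} (h : m ≤ n) {g : G} (hg : Lev m g) : Lev n g := by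
  intro k hk b u
  exact hg k (h.trans hk) b u

theorem Lev.of {j m : ℕ} (h : j < m) : Lev m (FreeGroup.of j) := by
  intro k hk b u
  exact ends_of_mul_ne (by omega) b u

theorem exists_lev (g : G) : ∃ m, Lev m g := by
  induction g using FreeGroup.induction_on with
  | C1 => exact ⟨0, Lev.one 0⟩
  | of j => exact ⟨j + 1, Lev.of (Nat.lt_succ_self j)⟩
  | inv_of j h => obtain ⟨m, hm⟩ := h; exact ⟨m, hm.inv⟩
  | mul x y hx hy =>
    obtain ⟨m, hm⟩ := hx
    obtain ⟨n, hn⟩ := hy
    exact ⟨max m n, (hm.mono (le_max_left _ _)).mul (hn.mono (le_max_right _ _))⟩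

theorem Lev.not_ends {m k : ℕ} {g : G} (hg : Lev m g) (hk : m ≤ k) (b : Bool) : ¬ Ends k b g := by
  have := hg k hk b 1
  rw [mul_one] at this
  rw [this]
  exact not_ends_one k b


/-! ### Tasks and their labels -/

abbrev CTask (k : ℕ) := Fin (k + 2) × Finset G
abbrev PTask (k : ℕ) := G × Fin (k + 2) × Fin (k + 2)
abbrev Task (k : ℕ) := CTask k ⊕ PTask k

noncomputable def lvl (g : G) : ℕ := Classical.choose (exists_lev g)

theorem lev_lvl (g : G) : Lev (lvl g) g := Classical.choose_spec (exists_lev g)

noncomputable def tlvl {k : ℕ} : Task k → ℕ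
  | Sum.inl τ => τ.2.sup lvl
  | Sum.inr r => lvl r.1

instance countableG : Countable G := FreeGroup.toWord_injective.countable

noncomputable def enc {k : ℕ} : Task k → ℕ := Classical.choose (exists_injective_nat (Task k))

theorem enc_inj {k : ℕ} : Function.Injective (enc (k := k)) :=
  Classical.choose_spec (exists_injective_nat (Task k))

noncomputable def lab {k : ℕ} (τ : Task k) : ℕ := Nat.pair (enc τ) (tlvl τ)

theorem lab_inj {k : ℕ} : Function.Injective (lab (k := k)) := by
  intro a b h
  unfold lab at h
  exact enc_inj (Nat.pair_eq_pair.1 h).1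

theorem tlvl_le_lab {k : ℕ} (τ : Task k) : tlvl τ ≤ lab τ := Nat.right_le_pair _ _

theorem lev_of_mem {k : ℕ} {i : Fin (k + 2)} {S : Finset G} {t : G} (ht : t ∈ S) {m : ℕ}
    (hm : lab (Sum.inl (i, S)) ≤ m) : Lev m t := by
  have h1 : lvl t ≤ S.sup lvl := Finset.le_sup (f := lvl) ht
  have h2 : S.sup lvl ≤ lab (Sum.inl (i, S)) := tlvl_le_lab (Sum.inl (i, S))
  exact (lev_lvl t).mono (h1.trans (h2.trans hm))

theorem lev_of_presc {k : ℕ} (r : PTask k) {m : ℕ} (hm : lab (Sum.inr r) ≤ m) : Lev m r.1 := by
  have h2 : lvl r.1 ≤ lab (Sum.inr r) := tlvl_le_lab (Sum.inr r)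
  exact (lev_lvl r.1).mono (h2.trans hm)

abbrev Idx (k : ℕ) := (G × CTask k) ⊕ PTask k

noncomputable def ilab {k : ℕ} : Idx k → ℕ
  | Sum.inl κ => lab (Sum.inl κ.2)
  | Sum.inr r => lab (Sum.inr r)

/-- constraint at `h` for the task `(i, S)` -/
def VC {k : ℕ} (d : G → Fin (k + 2)) (κ : G × CTask k) : Prop :=
  κ.2.2.card ≤ 2 ^ k → ∀ s ∈ κ.2.2,
    ¬ (d (FreeGroup.of (lab (Sum.inl κ.2)) * κ.1) = κ.2.1 ∧ d (s * κ.1) = κ.2.1)

/-- prescription for the task `(g, i, j)` -/
def VP {k : ℕ} (d : G → Fin (k + 2)) (r : PTask k) : Prop :=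
  d (r.1 * (FreeGroup.of (lab (Sum.inr r)))⁻¹) = r.2.1 ∧ d (FreeGroup.of (lab (Sum.inr r))) = r.2.2

def Valid {k : ℕ} (d : G → Fin (k + 2)) : Idx k → Prop
  | Sum.inl κ => VC d κ
  | Sum.inr r => VP d r

/-! ### Gluing -/

open Classical in
/-- glue two colourings along the cut `V` -/
noncomputable def cut {k : ℕ} (V : G → Prop) (d2 d1 : G → Fin (k + 2)) : G → Fin (k + 2) :=
  fun g => if V g then d2 g else d1 g

theorem cut_pos {k : ℕ} {V : G → Prop} {d2 d1 : G → Fin (k + 2)} {g : G} (h : V g) : cut V d2 d1 g = d2 g := by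
  unfold cut; simp [h]

theorem cut_neg {k : ℕ} {V : G → Prop} {d2 d1 : G → Fin (k + 2)} {g : G} (h : ¬ V g) : cut V d2 d1 g = d1 g := by
  unfold cut; simp [h]

/-- a constraint lying on one side of the cut stays valid -/
theorem VC_cut {k : ℕ} {V : G → Prop} {d2 d1 : G → Fin (k + 2)} {κ : G × CTask k}
    (h2 : VC d2 κ) (h1 : VC d1 κ)
    (ht : ∀ s ∈ κ.2.2, V (s * κ.1) ↔ V κ.1)
    (hx : V (FreeGroup.of (lab (Sum.inl κ.2)) * κ.1) ↔ V κ.1) : VC (cut V d2 d1) κ := by
  intro hc s hs
  by_cases hV : V κ.1
  · rw [cut_pos (hx.2 hV), cut_pos ((ht s hs).2 hV)]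
    exact h2 hc s hs
  · rw [cut_neg (fun h => hV (hx.1 h)), cut_neg (fun h => hV ((ht s hs).1 h))]
    exact h1 hc s hs

/-- the half-tree cut at the edge `(h, m)` -/
def Half (h : G) (m : ℕ) (g : G) : Prop := Ends m true (g * h⁻¹)

theorem half_tail {k : ℕ} {κ κ' : G × CTask k} (hle : lab (Sum.inl κ'.2) ≤ lab (Sum.inl κ.2)) :
    ∀ s ∈ κ'.2.2, Half κ.1 (lab (Sum.inl κ.2)) (s * κ'.1) ↔ Half κ.1 (lab (Sum.inl κ.2)) κ'.1 := by
  intro s hs
  unfold Half
  rw [mul_assoc]
  exact lev_of_mem (i := κ'.2.1) (S := κ'.2.2) hs hle _ le_rfl _ _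

theorem half_head {k : ℕ} {κ κ' : G × CTask k} (hle : lab (Sum.inl κ'.2) ≤ lab (Sum.inl κ.2)) (hne : κ' ≠ κ) :
    Half κ.1 (lab (Sum.inl κ.2)) (FreeGroup.of (lab (Sum.inl κ'.2)) * κ'.1) ↔
      Half κ.1 (lab (Sum.inl κ.2)) κ'.1 := by
  unfold Half
  rw [mul_assoc]
  rcases hle.lt_or_eq with hlt | heq
  · exact ends_of_mul_ne (by omega) _ _
  · have h2 : κ'.2 = κ.2 := Sum.inl_injective (lab_inj heq)
    rw [heq]
    apply ends_of_mul_self
    intro h1
    apply hne
    exact Prod.ext (mul_inv_eq_one.1 h1) h2

theorem glue_self {k : ℕ} {κ : G × CTask k} {d2 d1 : G → Fin (k + 2)}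
    (hcond : κ.2.2.card ≤ 2 ^ k → ((∀ s ∈ κ.2.2, d1 (s * κ.1) ≠ κ.2.1) ∨
      d2 (FreeGroup.of (lab (Sum.inl κ.2)) * κ.1) ≠ κ.2.1)) :
    VC (cut (Half κ.1 (lab (Sum.inl κ.2))) d2 d1) κ := by
  intro hc s hs
  have hx : Half κ.1 (lab (Sum.inl κ.2)) (FreeGroup.of (lab (Sum.inl κ.2)) * κ.1) := by
    unfold Half
    rw [mul_assoc, mul_inv_cancel, mul_one]
    exact ends_of _
  have ht : ¬ Half κ.1 (lab (Sum.inl κ.2)) (s * κ.1) := by
    unfold Half
    rw [mul_assoc, mul_inv_cancel, mul_one]
    exact (lev_of_mem (i := κ.2.1) (S := κ.2.2) hs le_rfl).not_ends le_rfl _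
  rw [cut_pos hx, cut_neg ht]
  rcases hcond hc with h | h
  · exact fun hh => h s hs hh.2
  · exact fun hh => h hh.1

theorem glue {k : ℕ} {s : Finset (Idx k)} {κ : G × CTask k} (hmax : ∀ x ∈ s, ilab x ≤ ilab (Sum.inl κ))
    (ha : Sum.inl κ ∉ s) {d2 d1 : G → Fin (k + 2)}
    (h2 : ∀ κ', Sum.inl κ' ∈ s → VC d2 κ') (h1 : ∀ κ', Sum.inl κ' ∈ s → VC d1 κ')
    (hcond : κ.2.2.card ≤ 2 ^ k → ((∀ s ∈ κ.2.2, d1 (s * κ.1) ≠ κ.2.1) ∨
      d2 (FreeGroup.of (lab (Sum.inl κ.2)) * κ.1) ≠ κ.2.1)) :
    ∀ κ', Sum.inl κ' ∈ insert (Sum.inl κ) s →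
      VC (cut (Half κ.1 (lab (Sum.inl κ.2))) d2 d1) κ' := by
  intro κ' hκ'
  rw [Finset.mem_insert] at hκ'
  rcases hκ' with h | h
  · have h' : κ' = κ := Sum.inl_injective h
    subst h'
    exact glue_self hcond
  · have hne : κ' ≠ κ := by
      rintro rfl; exact ha h
    have hle : lab (Sum.inl κ'.2) ≤ lab (Sum.inl κ.2) := hmax _ h
    exact VC_cut (h2 κ' h) (h1 κ' h) (half_tail hle) (half_head hle hne)

/-- avoidance on finitely many vertices -/
theorem inv_exists {k : ℕ} (T : Finset (Idx k)) : ∀ P : Fin (k + 2) → Finset G, Good (fun i => (P i).card) →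
    ∃ d : G → Fin (k + 2), (∀ κ, Sum.inl κ ∈ T → VC d κ) ∧ ∀ i, ∀ g ∈ P i, d g ≠ i := by
  classical
  induction T using Finset.induction_on_max_value ilab with
  | empty =>
    intro P hP
    obtain ⟨i, hi⟩ := hP.zero
    refine ⟨fun _ => i, by simp, ?_⟩
    intro j g hg hij
    subst hij
    rw [Finset.card_eq_zero] at hi
    rw [hi] at hg
    simp at hg
  | insert a s ha hmax ih =>
    intro P hP
    rcases a with κ | r
    swap
    · obtain ⟨d, hd, hd'⟩ := ih P hP
      refine ⟨d, ?_, hd'⟩
      intro κ hκ
      rw [Finset.mem_insert] at hκ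
      rcases hκ with h | h
      · exact absurd h (by simp)
      · exact hd κ h
    · set m := lab (Sum.inl κ.2) with hm
      set V := Half κ.1 m with hV
      set P2 : Fin (k + 2) → Finset G := fun j => (P j).filter V with hP2
      set P1 : Fin (k + 2) → Finset G := fun j => (P j).filter (fun g => ¬ V g) with hP1
      have hsum : (fun i => (P i).card) = (fun i => (P1 i).card) + (fun i => (P2 i).card) := by
        funext j
        simp only [Pi.add_apply, hP1, hP2]
        rw [add_comm]
        exact (Finset.card_filter_add_card_filter_not V).symm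
      have hg1 : Good (fun i => (P1 i).card) :=
        Good.mono (fun j => Finset.card_le_card (Finset.filter_subset _ _)) hP
      have hg2 : Good (fun i => (P2 i).card) :=
        Good.mono (fun j => Finset.card_le_card (Finset.filter_subset _ _)) hP
      by_cases hc : κ.2.2.card ≤ 2 ^ k
      · rw [hsum] at hP
        rcases hP.split κ.2.1 with h | h
        · obtain ⟨d1, hd1, hd1'⟩ := ih
            (fun j => P1 j ∪ (if j = κ.2.1 then κ.2.2.image (fun t => t * κ.1) else ∅)) (by
              refine Good.mono (fun j => ?_) h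
              refine (Finset.card_union_le _ _).trans ?_
              simp only [Pi.add_apply]
              by_cases hj : j = κ.2.1
              · rw [if_pos hj, hj, Pi.single_eq_same]
                exact Nat.add_le_add_left (Finset.card_image_le.trans hc) _
              · rw [if_neg hj, Pi.single_eq_of_ne hj]
                simp)
          obtain ⟨d2, hd2, hd2'⟩ := ih P2 hg2
          refine ⟨cut V d2 d1, glue hmax ha hd2 hd1 (fun _ => Or.inl ?_), ?_⟩
          · intro t ht
            refine hd1' κ.2.1 (t * κ.1) ?_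
            rw [Finset.mem_union]
            right
            rw [if_pos rfl]
            exact Finset.mem_image_of_mem _ ht
          · intro i g hg
            by_cases hVg : V g
            · rw [cut_pos hVg]
              exact hd2' i g (Finset.mem_filter.2 ⟨hg, hVg⟩)
            · rw [cut_neg hVg]
              exact hd1' i g (Finset.mem_union_left _ (Finset.mem_filter.2 ⟨hg, hVg⟩))
        · obtain ⟨d2, hd2, hd2'⟩ := ih
            (fun j => P2 j ∪ (if j = κ.2.1 then {FreeGroup.of m * κ.1} else ∅)) (by
              refine Good.mono (fun j => ?_) h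
              refine (Finset.card_union_le _ _).trans ?_
              simp only [Pi.add_apply]
              by_cases hj : j = κ.2.1
              · rw [if_pos hj, hj, Pi.single_eq_same]
                simp
              · rw [if_neg hj, Pi.single_eq_of_ne hj]
                simp)
          obtain ⟨d1, hd1, hd1'⟩ := ih P1 hg1
          refine ⟨cut V d2 d1, glue hmax ha hd2 hd1 (fun _ => Or.inr ?_), ?_⟩
          · refine hd2' κ.2.1 _ ?_
            rw [Finset.mem_union]
            right
            rw [if_pos rfl]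
            exact Finset.mem_singleton_self _
          · intro i g hg
            by_cases hVg : V g
            · rw [cut_pos hVg]
              exact hd2' i g (Finset.mem_union_left _ (Finset.mem_filter.2 ⟨hg, hVg⟩))
            · rw [cut_neg hVg]
              exact hd1' i g (Finset.mem_filter.2 ⟨hg, hVg⟩)
      · obtain ⟨d, hd, hd'⟩ := ih P hP
        refine ⟨d, ?_, hd'⟩
        intro κ' hκ'
        rw [Finset.mem_insert] at hκ'
        rcases hκ' with h | h
        · have h' : κ' = κ := Sum.inl_injective h
          subst h'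
          intro hcc
          exact absurd hcc hc
        · exact hd κ' h

/-- prescriptions and constraints together, finitely many -/
theorem ext_exists {k : ℕ} (T : Finset (Idx k)) : ∃ d : G → Fin (k + 2), ∀ t ∈ T, Valid d t := by
  classical
  induction T using Finset.induction_on_max_value ilab with
  | empty => exact ⟨fun _ => 0, by simp⟩
  | insert a s ha hmax ih =>
    obtain ⟨d0, hd0⟩ := ih
    have hd0c : ∀ κ', Sum.inl κ' ∈ s → VC d0 κ' := fun κ' h => hd0 _ h
    rcases a with κ | r
    · set m := lab (Sum.inl κ.2) with hm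
      set V := Half κ.1 m with hV
      -- prescriptions in s live on the side of 1
      have hside : ∀ g, Lev m g → (V g ↔ V 1) := by
        intro g hg
        rw [hV]
        unfold Half
        rw [one_mul]
        exact hg m le_rfl _ _
      have hpr : ∀ r', Sum.inr r' ∈ s →
          Lev m (FreeGroup.of (lab (Sum.inr r'))) ∧
          Lev m (r'.1 * (FreeGroup.of (lab (Sum.inr r')))⁻¹) := by
        intro r' hr'
        have hle : lab (Sum.inr r') ≤ m := hmax _ hr'
        have hne : lab (Sum.inr r') ≠ m := by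
          intro h
          exact absurd (lab_inj h) (by simp)
        have hlt : lab (Sum.inr r') < m := lt_of_le_of_ne hle hne
        exact ⟨Lev.of hlt, (lev_of_presc r' hle).mul (Lev.of hlt).inv⟩
      by_cases h1 : V 1
      · obtain ⟨d1, hd1, hd1'⟩ := inv_exists s
          (fun j => if j = κ.2.1 ∧ κ.2.2.card ≤ 2 ^ k then κ.2.2.image (fun t => t * κ.1) else ∅) (by
            apply good_of_le_single (i := κ.2.1)
            intro j
            by_cases hj : j = κ.2.1
            · by_cases hc : κ.2.2.card ≤ 2 ^ k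
              · rw [if_pos ⟨hj, hc⟩, if_pos hj]
                exact Finset.card_image_le.trans hc
              · rw [if_neg (fun h => hc h.2), if_pos hj]
                simp
            · rw [if_neg (fun h => hj h.1), if_neg hj]
              simp)
        have hg := glue hmax ha hd0c hd1 (fun hc => Or.inl (by
            intro t ht
            refine hd1' κ.2.1 (t * κ.1) ?_
            rw [if_pos ⟨rfl, hc⟩]
            exact Finset.mem_image_of_mem _ ht))
        refine ⟨cut V d0 d1, ?_⟩
        intro t ht
        rcases t with κ' | r'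
        · exact hg κ' ht
        · rw [Finset.mem_insert] at ht
          have hr' : Sum.inr r' ∈ s := by
            rcases ht with h | h
            · exact absurd h (by simp)
            · exact h
          obtain ⟨ha1, ha2⟩ := hpr r' hr'
          have hv := hd0 _ hr'
          change VP _ r'
          change VP _ r' at hv
          unfold VP
          rw [cut_pos ((hside _ ha1).2 h1), cut_pos ((hside _ ha2).2 h1)]
          exact hv
      · obtain ⟨d2, hd2, hd2'⟩ := inv_exists s
          (fun j => if j = κ.2.1 then {FreeGroup.of m * κ.1} else ∅) (by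
            apply good_of_le_single (i := κ.2.1)
            intro j
            by_cases hj : j = κ.2.1
            · rw [if_pos hj, if_pos hj, Finset.card_singleton]
              exact Nat.one_le_two_pow
            · rw [if_neg hj, if_neg hj]
              simp)
        have hg := glue hmax ha hd2 hd0c (fun _ => Or.inr (by
            refine hd2' κ.2.1 _ ?_
            rw [if_pos rfl]
            exact Finset.mem_singleton_self _))
        refine ⟨cut V d2 d0, ?_⟩
        intro t ht
        rcases t with κ' | r'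
        · exact hg κ' ht
        · rw [Finset.mem_insert] at ht
          have hr' : Sum.inr r' ∈ s := by
            rcases ht with h | h
            · exact absurd h (by simp)
            · exact h
          obtain ⟨ha1, ha2⟩ := hpr r' hr'
          have hv := hd0 _ hr'
          change VP _ r'
          change VP _ r' at hv
          unfold VP
          rw [cut_neg (fun h => h1 ((hside _ ha1).1 h)), cut_neg (fun h => h1 ((hside _ ha2).1 h))]
          exact hv
    · -- a prescription
      set m := lab (Sum.inr r) with hm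
      obtain ⟨d1, hd1, hd1'⟩ := inv_exists s
        (fun l => if l = r.2.2 then ∅ else {FreeGroup.of m}) (by
          refine Good.mono (w := fun j => if j = r.2.2 then 0 else 1) ?_ (good_cosingle _)
          intro j
          by_cases hj : j = r.2.2
          · simp [hj]
          · simp [hj])
      obtain ⟨d2, hd2, hd2'⟩ := inv_exists s
        (fun l => if l = r.2.1 then ∅ else {r.1 * (FreeGroup.of m)⁻¹}) (by
          refine Good.mono (w := fun j => if j = r.2.1 then 0 else 1) ?_ (good_cosingle _)
          intro j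
          by_cases hj : j = r.2.1
          · simp [hj]
          · simp [hj])
      have e1 : d1 (FreeGroup.of m) = r.2.2 := by
        by_contra hne
        refine hd1' (d1 (FreeGroup.of m)) (FreeGroup.of m) ?_ rfl
        rw [if_neg hne]
        exact Finset.mem_singleton_self _
      have e2 : d2 (r.1 * (FreeGroup.of m)⁻¹) = r.2.1 := by
        by_contra hne
        refine hd2' (d2 (r.1 * (FreeGroup.of m)⁻¹)) (r.1 * (FreeGroup.of m)⁻¹) ?_ rfl
        rw [if_neg hne]
        exact Finset.mem_singleton_self _
      have hlev : Lev m r.1 := lev_of_presc r le_rfl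
      refine ⟨cut (Ends m true) d1 (cut (Ends m false) d2 d0), ?_⟩
      have tail : ∀ κ', Sum.inl κ' ∈ s → ∀ b, ∀ t ∈ κ'.2.2,
          (Ends m b (t * κ'.1) ↔ Ends m b κ'.1) := by
        intro κ' hκ' b t ht
        exact lev_of_mem (i := κ'.2.1) (S := κ'.2.2) ht (hmax _ hκ') m le_rfl b _
      have head : ∀ κ', Sum.inl κ' ∈ s → ∀ b,
          (Ends m b (FreeGroup.of (lab (Sum.inl κ'.2)) * κ'.1) ↔ Ends m b κ'.1) := by
        intro κ' hκ' b
        have hne : lab (Sum.inl κ'.2) ≠ m := by
          intro h
          exact absurd (lab_inj h) (by simp)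
        exact ends_of_mul_ne hne b _
      intro t ht
      rw [Finset.mem_insert] at ht
      rcases t with κ' | r'
      · have hκ' : Sum.inl κ' ∈ s := by
          rcases ht with h | h
          · exact absurd h (by simp)
          · exact h
        change VC _ κ'
        exact VC_cut (hd1 κ' hκ') (VC_cut (hd2 κ' hκ') (hd0c κ' hκ') (tail κ' hκ' false)
          (head κ' hκ' false)) (tail κ' hκ' true) (head κ' hκ' true)
      · change VP _ r'
        rcases ht with h | h
        · have h' : r' = r := Sum.inr_injective h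
          subst h'
          unfold VP
          have n1 : ¬ Ends m true (r'.1 * (FreeGroup.of m)⁻¹) := by
            rw [hlev m le_rfl]
            have := ends_of_inv m
            unfold Ends at this ⊢
            rw [this]
            simp
          have n2 : Ends m false (r'.1 * (FreeGroup.of m)⁻¹) := by
            rw [hlev m le_rfl]
            exact ends_of_inv m
          rw [← hm, cut_neg n1, cut_pos n2, cut_pos (ends_of m)]
          exact ⟨e2, e1⟩
        · have hle : lab (Sum.inr r') ≤ m := hmax _ h
          have hne : lab (Sum.inr r') ≠ m := by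
            intro h'
            have h'' : r' = r := Sum.inr_injective (lab_inj h')
            subst h''
            exact ha h
          have hlt : lab (Sum.inr r') < m := lt_of_le_of_ne hle hne
          have l1 : Lev m (FreeGroup.of (lab (Sum.inr r'))) := Lev.of hlt
          have l2 : Lev m (r'.1 * (FreeGroup.of (lab (Sum.inr r')))⁻¹) :=
            (lev_of_presc r' hle).mul (Lev.of hlt).inv
          have hv := hd0 _ h
          change VP _ r' at hv
          unfold VP
          rw [cut_neg (l1.not_ends le_rfl _), cut_neg (l1.not_ends le_rfl _),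
            cut_neg (l2.not_ends le_rfl _), cut_neg (l2.not_ends le_rfl _)]
          exact hv

theorem isClopen_eq {k : ℕ} (a : G) (i : Fin (k + 2)) : IsClopen {d : G → Fin (k + 2) | d a = i} := by
  have : {d : G → Fin (k + 2) | d a = i} = (fun d : G → Fin (k + 2) => d a) ⁻¹' {i} := by
    ext d; simp
  rw [this]
  exact (isClopen_discrete {i}).preimage (continuous_apply a)

theorem isClosed_valid {k : ℕ} (t : Idx k) : IsClosed {d : G → Fin (k + 2) | Valid d t} := by
  rcases t with κ | r
  · change IsClosed {d : G → Fin (k + 2) | VC d κ}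
    unfold VC
    by_cases hc : κ.2.2.card ≤ 2 ^ k
    · have : {d : G → Fin (k + 2) | κ.2.2.card ≤ 2 ^ k → ∀ s ∈ κ.2.2,
          ¬ (d (FreeGroup.of (lab (Sum.inl κ.2)) * κ.1) = κ.2.1 ∧ d (s * κ.1) = κ.2.1)} =
          ⋂ s ∈ κ.2.2, ({d : G → Fin (k + 2) | d (FreeGroup.of (lab (Sum.inl κ.2)) * κ.1) = κ.2.1} ∩
            {d : G → Fin (k + 2) | d (s * κ.1) = κ.2.1})ᶜ := by
        ext d
        simp [hc]
      rw [this]
      exact isClosed_biInter fun s _ =>
        (((isClopen_eq _ _).inter (isClopen_eq _ _)).compl).isClosed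
    · have : {d : G → Fin (k + 2) | κ.2.2.card ≤ 2 ^ k → ∀ s ∈ κ.2.2,
          ¬ (d (FreeGroup.of (lab (Sum.inl κ.2)) * κ.1) = κ.2.1 ∧ d (s * κ.1) = κ.2.1)} =
          Set.univ := by
        ext d
        simp only [Set.mem_ofPred_eq, Set.mem_univ, iff_true]
        intro h
        exact absurd h hc
      rw [this]
      exact isClosed_univ
  · change IsClosed {d : G → Fin (k + 2) | VP d r}
    unfold VP
    exact ((isClopen_eq _ _).inter (isClopen_eq _ _)).isClosed

theorem exists_colouring (k : ℕ) : ∃ d : G → Fin (k + 2), ∀ t : Idx k, Valid d t := by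
  have := CompactSpace.iInter_nonempty (t := fun t : Idx k => {d : G → Fin (k + 2) | Valid d t})
    isClosed_valid (by
      intro s
      obtain ⟨d, hd⟩ := ext_exists s
      exact ⟨d, by simpa using hd⟩)
  obtain ⟨d, hd⟩ := this
  exact ⟨d, by simpa using hd⟩

end Pool.Agent.MP34521cIns
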