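import Mathlib

set_option autoImplicit false

/-!
MP_34521c_al (covering numbers for partitions of groups with commuting cells), own theorem beside
the frozen negation S01146: the closed family of count vectors for `k + 2` colours.

A vector `v : Fin (k+2) → ℕ` (`v i` = number of prescribed places at which colour `i` is forbidden)
is good if the colours can be ordered such that the last one is nowhere forbidden and
`∑ 2 ^ j * v (σ j) ≤ 3 * 2 ^ k - 2`.
-/

namespace Pool.Agent.MP34521cIns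

/-- good count vectors -/
def Good {k : ℕ} (v : Fin (k + 2) → ℕ) : Prop :=
  ∃ σ : Equiv.Perm (Fin (k + 2)), v (σ (Fin.last (k + 1))) = 0 ∧
    ∑ j : Fin (k + 2), 2 ^ (j : ℕ) * v (σ j) + 2 ≤ 3 * 2 ^ k

theorem Good.mono {k : ℕ} {v w : Fin (k + 2) → ℕ} (h : v ≤ w) (hw : Good w) : Good v := by
  obtain ⟨σ, h0, hs⟩ := hw
  refine ⟨σ, Nat.le_zero.1 ((h _).trans h0.le), le_trans ?_ hs⟩
  refine Nat.add_le_add_right (Finset.sum_le_sum fun j _ => ?_) 2
  exact Nat.mul_le_mul_left _ (h _)

theorem Good.zero {k : ℕ} {v : Fin (k + 2) → ℕ} (hv : Good v) : ∃ i, v i = 0 := by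
  obtain ⟨σ, h0, _⟩ := hv
  exact ⟨_, h0⟩

theorem good_single {k : ℕ} (i : Fin (k + 2)) : Good (Pi.single i (2 ^ k)) := by
  have hl : Fin.last (k + 1) ≠ 0 := by
    intro h
    have := congrArg Fin.val h
    simp at this
  refine ⟨Equiv.swap 0 i, ?_, ?_⟩
  · apply Pi.single_eq_of_ne
    intro h
    apply hl
    have h2 := congrArg (Equiv.swap 0 i) h
    simpa using h2
  · rw [Finset.sum_eq_single 0]
    · rw [Equiv.swap_apply_left, Pi.single_eq_same]
      have : 1 ≤ 2 ^ k := Nat.one_le_two_pow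
      simp
      omega
    · intro j _ hj
      rw [Pi.single_eq_of_ne, mul_zero]
      intro h
      apply hj
      have h2 := congrArg (Equiv.swap 0 i) h
      simpa using h2
    · simp

theorem sum_pow_castSucc (n : ℕ) : ∑ j : Fin n, 2 ^ (j : ℕ) + 1 = 2 ^ n := by
  rw [Fin.sum_univ_eq_sum_range (fun j => 2 ^ j) n]
  induction n with
  | zero => simp
  | succ n ih => rw [Finset.sum_range_succ, pow_succ]; omega

theorem good_cosingle {k : ℕ} (i : Fin (k + 2)) : Good (fun j => if j = i then 0 else 1) := by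
  refine ⟨Equiv.swap (Fin.last (k + 1)) i, ?_, ?_⟩
  · simp
  · rw [Fin.sum_univ_castSucc]
    have e : ∀ j : Fin (k + 1), 2 ^ ((Fin.castSucc j : Fin (k + 2)) : ℕ) *
        (if Equiv.swap (Fin.last (k + 1)) i (Fin.castSucc j) = i then 0 else 1) ≤
        2 ^ (j : ℕ) := by
      intro j
      rw [Fin.val_castSucc]
      split_ifs
      · simp
      · simp
    have h1 := Finset.sum_le_sum (s := Finset.univ) fun j (_ : j ∈ Finset.univ) => e j
    have h2 := sum_pow_castSucc (k + 1)
    have h3 : 1 ≤ 2 ^ k := Nat.one_le_two_pow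
    have h4 : 2 ^ (k + 1) = 2 * 2 ^ k := by rw [pow_succ]; ring
    simp only [Equiv.swap_apply_left, if_true, mul_zero, add_zero]
    omega

/-- if the potential of `u` is less than `2 ^ k`, then `2 ^ k` places can be added to any colour -/
theorem good_add {k : ℕ} {u : Fin (k + 2) → ℕ} (σ : Equiv.Perm (Fin (k + 2)))
    (h0 : u (σ (Fin.last (k + 1))) = 0) (hy : ∑ j : Fin (k + 2), 2 ^ (j : ℕ) * u (σ j) < 2 ^ k)
    (i : Fin (k + 2)) : Good (u + Pi.single i (2 ^ k)) := by
  set p : Fin (k + 2) := σ.symm i with hp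
  have hpi : σ p = i := by rw [hp]; simp
  refine ⟨p.cycleRange.symm.trans σ, ?_, ?_⟩
  · have e1 : (p.cycleRange.symm.trans σ) (Fin.last (k + 1)) =
        σ (p.succAbove (Fin.last k)) := by
      rw [Equiv.trans_apply, ← Fin.succ_last, Fin.cycleRange_symm_succ]
    have hne : σ (p.succAbove (Fin.last k)) ≠ i := by
      rw [← hpi]
      intro h
      exact Fin.succAbove_ne p _ (σ.injective h)
    rw [e1, Pi.add_apply, Pi.single_eq_of_ne hne, add_zero]
    rcases eq_or_ne p (Fin.last (k + 1)) with hl | hl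
    · rw [hl, Fin.succAbove_last]
      by_contra hc
      have hk : 2 ^ k * u (σ (Fin.castSucc (Fin.last k))) ≤ ∑ j : Fin (k + 2), 2 ^ (j : ℕ) * u (σ j) := by
        have := Finset.single_le_sum (f := fun j : Fin (k + 2) => 2 ^ (j : ℕ) * u (σ j))
          (fun j _ => Nat.zero_le _) (Finset.mem_univ (Fin.castSucc (Fin.last k)))
        simpa using this
      have h1 : 1 ≤ u (σ (Fin.castSucc (Fin.last k))) := Nat.one_le_iff_ne_zero.2 hc
      have h2 : 2 ^ k * 1 ≤ 2 ^ k * u (σ (Fin.castSucc (Fin.last k))) :=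
        Nat.mul_le_mul_left _ h1
      omega
    · rw [Fin.succAbove_ne_last_last hl]
      exact h0
  · have e2 : ∑ j : Fin (k + 2), 2 ^ (j : ℕ) * (u + Pi.single i (2 ^ k) : Fin (k + 2) → ℕ) ((p.cycleRange.symm.trans σ) j) =
        (u i + 2 ^ k) + ∑ j : Fin (k + 1), 2 * (2 ^ (j : ℕ) * u (σ (p.succAbove j))) := by
      rw [Fin.sum_univ_succ]
      congr 1
      · rw [Equiv.trans_apply, Fin.cycleRange_symm_zero, hpi]
        simp
      · refine Finset.sum_congr rfl fun j _ => ?_
        rw [Equiv.trans_apply, Fin.cycleRange_symm_succ, Pi.add_apply, Pi.single_eq_of_ne]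
        · rw [Fin.val_succ, pow_succ]; ring
        · rw [← hpi]
          intro h
          exact Fin.succAbove_ne p _ (σ.injective h)
    have e3 : ∑ j : Fin (k + 1), 2 * (2 ^ (j : ℕ) * u (σ (p.succAbove j))) ≤
        2 * ∑ j : Fin (k + 1), 2 ^ ((p.succAbove j : Fin (k + 2)) : ℕ) * u (σ (p.succAbove j)) := by
      rw [Finset.mul_sum]
      refine Finset.sum_le_sum fun j _ => ?_
      refine Nat.mul_le_mul_left _ (Nat.mul_le_mul_right _ (Nat.pow_le_pow_right (by norm_num) ?_))
      rcases lt_or_ge (Fin.castSucc j) p with hlt | hge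
      · rw [Fin.succAbove_of_castSucc_lt _ _ hlt]; simp
      · rw [Fin.succAbove_of_le_castSucc _ _ hge]; simp
    have e4 : ∑ j : Fin (k + 2), 2 ^ (j : ℕ) * u (σ j) = 2 ^ (p : ℕ) * u i +
        ∑ j : Fin (k + 1), 2 ^ ((p.succAbove j : Fin (k + 2)) : ℕ) * u (σ (p.succAbove j)) := by
      rw [Fin.sum_univ_succAbove _ p, hpi]
    have h5 : u i ≤ 2 ^ (p : ℕ) * u i := Nat.le_mul_of_pos_left _ (by positivity)
    rw [e2]
    omega

theorem Good.split {k : ℕ} {u w : Fin (k + 2) → ℕ} (h : Good (u + w)) (i : Fin (k + 2)) :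
    Good (u + Pi.single i (2 ^ k)) ∨ Good (w + Pi.single i 1) := by
  obtain ⟨σ, h0, hs⟩ := h
  have h0u : u (σ (Fin.last (k + 1))) = 0 := by
    rw [Pi.add_apply] at h0; omega
  have h0w : w (σ (Fin.last (k + 1))) = 0 := by
    rw [Pi.add_apply] at h0; omega
  have hsum : ∑ j : Fin (k + 2), 2 ^ (j : ℕ) * (u + w) (σ j) =
      ∑ j : Fin (k + 2), 2 ^ (j : ℕ) * u (σ j) + ∑ j : Fin (k + 2), 2 ^ (j : ℕ) * w (σ j) := by
    rw [← Finset.sum_add_distrib]
    refine Finset.sum_congr rfl fun j _ => ?_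
    rw [Pi.add_apply]; ring
  rw [hsum] at hs
  by_cases hy : ∑ j : Fin (k + 2), 2 ^ (j : ℕ) * u (σ j) < 2 ^ k
  · exact Or.inl (good_add σ h0u hy i)
  right
  -- every position which is used costs at most 2 ^ k
  have hadd : ∀ τ : Equiv.Perm (Fin (k + 2)), ∑ j : Fin (k + 2), 2 ^ (j : ℕ) * (w + Pi.single i 1 : Fin (k + 2) → ℕ) (τ j) =
      ∑ j : Fin (k + 2), 2 ^ (j : ℕ) * w (τ j) + 2 ^ ((τ.symm i : Fin (k + 2)) : ℕ) := by
    intro τ
    have : ∑ j : Fin (k + 2), 2 ^ (j : ℕ) * (Pi.single i 1 : Fin (k + 2) → ℕ) (τ j) =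
        2 ^ ((τ.symm i : Fin (k + 2)) : ℕ) := by
      rw [Finset.sum_eq_single (τ.symm i)]
      · simp
      · intro j _ hj
        rw [Pi.single_eq_of_ne, mul_zero]
        intro h
        apply hj
        rw [← h]; simp
      · simp
    rw [← this, ← Finset.sum_add_distrib]
    refine Finset.sum_congr rfl fun j _ => ?_
    rw [Pi.add_apply]; ring
  have hpow : ∀ q : Fin (k + 2), q ≠ Fin.last (k + 1) → 2 ^ (q : ℕ) ≤ 2 ^ k := by
    intro q hq
    refine Nat.pow_le_pow_right (by norm_num) ?_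
    have h1 : (q : ℕ) ≠ k + 1 := by
      intro h
      apply hq
      exact Fin.ext (by simpa using h)
    have := q.isLt
    omega
  by_cases hj : σ.symm i = Fin.last (k + 1)
  · -- colour i is the last one
    by_cases hz : ∃ q : Fin (k + 2), q ≠ Fin.last (k + 1) ∧ w (σ q) = 0
    · obtain ⟨q, hq, hwq⟩ := hz
      have hiσ : i = σ (Fin.last (k + 1)) := by rw [← hj]; simp
      have hwi : w i = 0 := by rw [hiσ]; exact h0w
      refine ⟨(Equiv.swap q (Fin.last (k + 1))).trans σ, ?_, ?_⟩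
      · rw [Equiv.trans_apply, Equiv.swap_apply_right, Pi.add_apply, hwq, zero_add]
        apply Pi.single_eq_of_ne
        rw [hiσ]
        intro h
        exact hq (σ.injective h)
      · rw [hadd]
        have e1 : ∑ j : Fin (k + 2), 2 ^ (j : ℕ) * w (((Equiv.swap q (Fin.last (k + 1))).trans σ) j) =
            ∑ j : Fin (k + 2), 2 ^ (j : ℕ) * w (σ j) := by
          refine Finset.sum_congr rfl fun j _ => ?_
          rw [Equiv.trans_apply]
          rcases eq_or_ne j q with rfl | hjq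
          · rw [Equiv.swap_apply_left, h0w, hwq]
          rcases eq_or_ne j (Fin.last (k + 1)) with rfl | hjl
          · rw [Equiv.swap_apply_right, h0w, hwq]
          · rw [Equiv.swap_apply_of_ne_of_ne hjq hjl]
        have e2 : (((Equiv.swap q (Fin.last (k + 1))).trans σ).symm i : Fin (k + 2)) = q := by
          rw [Equiv.symm_trans_apply, hj, Equiv.symm_swap, Equiv.swap_apply_right]
        rw [e1, e2]
        have := hpow q hq
        omega
    · push_neg at hz
      exfalso
      have h1 : ∑ j : Fin (k + 1), 2 ^ (j : ℕ) ≤ ∑ j : Fin (k + 2), 2 ^ (j : ℕ) * w (σ j) := by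
        rw [Fin.sum_univ_castSucc (fun j : Fin (k + 2) => 2 ^ (j : ℕ) * w (σ j))]
        refine le_trans (Finset.sum_le_sum fun j _ => ?_) (Nat.le_add_right _ _)
        rw [Fin.val_castSucc]
        refine Nat.le_mul_of_pos_right _ (Nat.pos_of_ne_zero (hz _ ?_))
        exact (Fin.castSucc_lt_last j).ne
      have h2 := sum_pow_castSucc (k + 1)
      have h4 : 2 ^ (k + 1) = 2 * 2 ^ k := by rw [pow_succ]; ring
      omega
  · refine ⟨σ, ?_, ?_⟩
    · rw [Pi.add_apply, h0w, zero_add]
      apply Pi.single_eq_of_ne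
      intro h
      apply hj
      rw [← h]; simp
    · rw [hadd]
      have := hpow _ hj
      omega

theorem good_of_le_single {k : ℕ} {v : Fin (k + 2) → ℕ} {i : Fin (k + 2)}
    (h : ∀ j, v j ≤ if j = i then 2 ^ k else 0) : Good v := by
  refine Good.mono (w := Pi.single i (2 ^ k)) ?_ (good_single i)
  intro j
  refine (h j).trans ?_
  by_cases hj : j = i
  · subst hj; simp
  · simp [hj]

end Pool.Agent.MP34521cIns
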